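import Pool.Agent.Q201.ACFOGen

/-!
# No model of ACFO is inp-minimal

The rows are `x + a_i ∈ (c_j, c_{j+1})`: for different `i` the functions `x + a_i` are
multiplicatively independent, so by genericity their positions in the order of `Fˣ` are
independent.
-/

set_option autoImplicit false

namespace Pool.Agent.Results.MP_711d73_lc.NotInpMinimal

open FirstOrder Language Q201.ACFO

universe u

/-- The row `{φ(x, b j) : j < ω}`, in the single variable `x`, is `k`-inconsistent: no `x` satisfies
`k` of the formulas. -/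
def RowInconsistent {L : FirstOrder.Language.{0, 0}} {M : Type u} [L.Structure M] {n : ℕ}
    (φ : L.Formula (Unit ⊕ Fin n)) (k : ℕ) (b : ℕ → Fin n → M) : Prop :=
  ∀ s : Finset ℕ, s.card = k → ¬ ∃ x : M, ∀ j ∈ s, φ.Realize (Sum.elim (fun _ => x) (b j))

/-- A complete theory `T` is inp-minimal if there are no formulas `φ₁(x, y₁)`, `φ₂(x, y₂)` with `x`
a single variable, numbers `k₁`, `k₂`, and parameters `b₁ j`, `b₂ j` (`j < ω`) in a model of `T` such
that the rows are `k₁`- and `k₂`-inconsistent, and `{φ₁(x, b₁ j₁), φ₂(x, b₂ j₂)}` is consistent for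
all `j₁`, `j₂`. -/
def InpMinimal {L : FirstOrder.Language.{0, 0}} (T : L.Theory) : Prop :=
  ¬ ∃ (M : Type u) (_ : L.Structure M) (_ : M ⊨ T) (n₁ n₂ : ℕ)
      (φ₁ : L.Formula (Unit ⊕ Fin n₁)) (φ₂ : L.Formula (Unit ⊕ Fin n₂)) (k₁ k₂ : ℕ)
      (b₁ : ℕ → Fin n₁ → M) (b₂ : ℕ → Fin n₂ → M),
    RowInconsistent φ₁ k₁ b₁ ∧ RowInconsistent φ₂ k₂ b₂ ∧
      ∀ j₁ j₂ : ℕ, ∃ x : M, φ₁.Realize (Sum.elim (fun _ => x) (b₁ j₁)) ∧
        φ₂.Realize (Sum.elim (fun _ => x) (b₂ j₂))

/-- The symbol `<` of `L_c`. -/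
def ltC : Lc.Relations 2 := OrdRel.lt

/-- The term `x + y₀`. -/
def tm : Lc.Term (Unit ⊕ Fin 3) :=
  Functions.apply₂ (RgFn.add : Lc.Functions 2) (Term.var (Sum.inl ())) (Term.var (Sum.inr 0))

/-- The formula `y₁ < x + y₀ ∧ x + y₀ < y₂`. -/
def phi : Lc.Formula (Unit ⊕ Fin 3) :=
  (Relations.formula₂ ltC (Term.var (Sum.inr 1)) tm) ⊓
    (Relations.formula₂ ltC tm (Term.var (Sum.inr 2)))

section

variable {F : Type u} [Field F] (D : OrdData Fˣ)

theorem realize_phi (x : F) (b : Fin 3 → F) :
    @Formula.Realize Lc F (rgStructure F D) _ phi (Sum.elim (fun _ => x) b) ↔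
      (∃ c a : Fˣ, (c : F) = b 1 ∧ (a : F) = x + b 0 ∧ D.lt c a) ∧
      (∃ a c : Fˣ, (a : F) = x + b 0 ∧ (c : F) = b 2 ∧ D.lt a c) := by
  let _ := rgStructure F D
  unfold phi
  rw [Formula.realize_inf, Formula.realize_rel₂, Formula.realize_rel₂]
  exact Iff.rfl

theorem chain {D : OrdData Fˣ} (h : GoodOrder D.lt) :
    ∃ c : ℕ → Fˣ, ∀ i j, i < j → D.lt (c i) (c j) := by
  choose s hs using h.nomax
  refine ⟨fun n => s^[n] 1, ?_⟩
  intro i j hij
  induction j with
  | zero => omega
  | succ j ih =>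
    have h1 : D.lt (s^[j] 1) (s^[j + 1] 1) := by
      rw [Function.iterate_succ_apply']
      exact hs _
    rcases Nat.lt_succ_iff_lt_or_eq.mp hij with h2 | h2
    · exact h.trans _ _ _ (ih h2) h1
    · subst h2; exact h1

theorem infinite_of {D : OrdData Fˣ} (h : IsACFOMinus F D) : Infinite F := by
  obtain ⟨p, _, _, h3, _⟩ := h
  exact IsAlgClosed.instInfinite

end

/-- **No model of `ACFO` has an inp-minimal theory.** Moreover, in every model of `ACFO` there are a
formula `φ(x, y)` with `x` a single variable and parameters `b i j` such that every row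
`{φ(x, b i j) : j < ω}`, `i < ω`, is `2`-inconsistent, and every path `{φ(x, b i (η i)) : i < ω}` is
finitely satisfiable (an inp-pattern of infinite depth). -/
theorem result (F : Type u) [Field F] (D : OrdData Fˣ) (h : IsACFO F D) :
    letI := rgStructure F D
    ¬ InpMinimal.{u} (Lc.completeTheory F) ∧
    ∃ (φ : Lc.Formula (Unit ⊕ Fin 3)) (b : ℕ → ℕ → Fin 3 → F),
      (∀ i, RowInconsistent φ 2 (b i)) ∧
      ∀ (η : ℕ → ℕ) (N : ℕ), ∃ x : F, ∀ i < N, φ.Realize (Sum.elim (fun _ => x) (b i (η i))) := by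
  classical
  let _ := rgStructure F D
  have hgo := goodOrder h.1
  have := infinite_of h.1
  obtain ⟨c, hc⟩ := chain hgo
  let a : ℕ → F := Infinite.natEmbedding F
  have ha : Function.Injective a := (Infinite.natEmbedding F).injective
  let b : ℕ → ℕ → Fin 3 → F := fun i j => ![a i, (c j : F), (c (j + 1) : F)]
  have key : ∀ (i j : ℕ) (x : F), phi.Realize (Sum.elim (fun _ => x) (b i j)) ↔
      ∃ z : Fˣ, (z : F) = x + a i ∧ D.lt (c j) z ∧ D.lt z (c (j + 1)) := by
    intro i j x
    rw [realize_phi]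
    constructor
    · rintro ⟨⟨c', z, h1, h2, h3⟩, ⟨z', c'', h4, h5, h6⟩⟩
      have e1 : c' = c j := Units.ext h1
      have e2 : c'' = c (j + 1) := Units.ext h5
      have e3 : z = z' := Units.ext (h2.trans h4.symm)
      subst e1 e2 e3
      exact ⟨z, h2, h3, h6⟩
    · rintro ⟨z, h1, h2, h3⟩
      exact ⟨⟨c j, z, rfl, h1, h2⟩, ⟨z, c (j + 1), h1, rfl, h3⟩⟩
  have hrow : ∀ i, RowInconsistent phi 2 (b i) := by
    intro i s hs
    rintro ⟨x, hx⟩
    obtain ⟨j, j', hjj, rfl⟩ := Finset.card_eq_two.mp hs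
    have main : ∀ j j', j < j' → phi.Realize (Sum.elim (fun _ => x) (b i j)) →
        phi.Realize (Sum.elim (fun _ => x) (b i j')) → False := by
      intro j j' hlt h1 h2
      rw [key] at h1 h2
      obtain ⟨z, hz1, _, hz3⟩ := h1
      obtain ⟨z', hz1', hz2', _⟩ := h2
      have e : z = z' := Units.ext (hz1.trans hz1'.symm)
      subst e
      rcases Nat.lt_or_ge (j + 1) j' with h3 | h3
      · exact hgo.irrefl z (hgo.trans _ _ _ hz3 (hgo.trans _ _ _ (hc _ _ h3) hz2'))
      · have : j' = j + 1 := by omega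
        subst this
        exact hgo.irrefl z (hgo.trans _ _ _ hz3 hz2')
    rcases lt_or_gt_of_ne hjj with h1 | h1
    · exact main j j' h1 (hx j (by simp)) (hx j' (by simp))
    · exact main j' j h1 (hx j' (by simp)) (hx j (by simp))
  have hpath : ∀ (η : ℕ → ℕ) (N : ℕ), ∃ x : F, ∀ i < N,
      phi.Realize (Sum.elim (fun _ => x) (b i (η i))) := by
    intro η N
    let P : ℕ → Polynomial (Polynomial F) := fun i =>
      Polynomial.C (Polynomial.X - Polynomial.C (- a i))
    have hP : Function.Injective P := by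
      intro i j hij
      have h1 := Polynomial.C_injective hij
      have h2 := congrArg (fun q : Polynomial F => q.eval 0) h1
      simp only [Polynomial.eval_sub, Polynomial.eval_X, Polynomial.eval_C] at h2
      apply ha
      linear_combination h2
    let S : Finset (Polynomial (Polynomial F)) :=
      {Polynomial.C Polynomial.X, Polynomial.X} ∪ (Finset.range N).image P
    let lo : Polynomial (Polynomial F) → ℕ := fun f => if h : ∃ i, P i = f then η h.choose else 0
    have hlo : ∀ i, lo (P i) = η i := by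
      intro i
      have h1 : ∃ j, P j = P i := ⟨i, rfl⟩
      have h2 : h1.choose = i := hP h1.choose_spec
      show (if h : ∃ j, P j = P i then η h.choose else 0) = η i
      rw [dif_pos h1, h2]
    have hX : (Polynomial.C Polynomial.X : Polynomial (Polynomial F)) =
        Polynomial.C (Polynomial.X - Polynomial.C 0) := by simp
    have hirrC : ∀ r : F, Irreducible
        (Polynomial.C (Polynomial.X - Polynomial.C r) : Polynomial (Polynomial F)) := by
      intro r
      exact (Polynomial.prime_C_iff.mpr (Polynomial.prime_X_sub_C r)).irreducible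
    have hnC : ∀ r : F, Nrm
        (Polynomial.C (Polynomial.X - Polynomial.C r) : Polynomial (Polynomial F)) := by
      intro r
      unfold Nrm
      rw [Polynomial.leadingCoeff_C, Polynomial.leadingCoeff_X_sub_C]
    obtain ⟨σ, τ, hστ⟩ := generic_finset hgo.dense h.2 S
      (by
        intro f hf
        rcases Finset.mem_union.mp hf with h1 | h1
        · rcases Finset.mem_insert.mp h1 with h2 | h2
          · rw [h2, hX]; exact hirrC 0
          · rw [Finset.mem_singleton.mp h2]; exact Polynomial.irreducible_X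
        · obtain ⟨i, _, rfl⟩ := Finset.mem_image.mp h1
          exact hirrC _)
      (by
        intro f hf
        rcases Finset.mem_union.mp hf with h1 | h1
        · rcases Finset.mem_insert.mp h1 with h2 | h2
          · rw [h2, hX]; exact hnC 0
          · rw [Finset.mem_singleton.mp h2]; simp [Nrm]
        · obtain ⟨i, _, rfl⟩ := Finset.mem_image.mp h1
          exact hnC _)
      (by simp [S]) (by simp [S]) (fun f => c (lo f)) (fun f => c (lo f + 1))
      (fun f _ => hc _ _ (Nat.lt_succ_self _))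
    refine ⟨σ, fun i hi => ?_⟩
    rw [key]
    obtain ⟨z, h1, h2, h3⟩ := hστ (P i) (Finset.mem_union_right _
      (Finset.mem_image_of_mem _ (Finset.mem_range.mpr hi)))
    rw [hlo] at h2 h3
    refine ⟨z, ?_, h2, h3⟩
    rw [h1]
    simp [P, Polynomial.evalEval_C]
  refine ⟨?_, phi, b, hrow, hpath⟩
  intro hmin
  apply hmin
  refine ⟨F, inferInstance, inferInstance, 3, 3, phi, phi, 2, 2, b 0, b 1, hrow 0, hrow 1, ?_⟩
  intro j₁ j₂
  obtain ⟨x, hx⟩ := hpath (fun i => if i = 0 then j₁ else j₂) 2
  exact ⟨x, by simpa using hx 0 (by norm_num), by simpa using hx 1 (by norm_num)⟩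

end Pool.Agent.Results.MP_711d73_lc.NotInpMinimal
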